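import Pool.Agent.H268Z.Large

set_option autoImplicit false

open scoped Pointwise

namespace Pool.Agent.Results.MP_68822d_al.AllGroups

universe u

/-- Every infinite group `G` has a partition into `|G|` nonempty cells, each of which is left and
right `|G|`-large. -/
theorem result (G : Type u) [Group G] [Infinite G] :
    ∃ P : Set (Set G), Setoid.IsPartition P ∧ Cardinal.mk P = Cardinal.mk G ∧ ∀ A ∈ P,
      (∃ F : Set G, Cardinal.mk F < Cardinal.mk G ∧ F * A = Set.univ) ∧
      (∃ F : Set G, Cardinal.mk F < Cardinal.mk G ∧ A * F = Set.univ) :=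
  Pool.Agent.H268Z.Large.part_kappa G (Cardinal.mk G) (Cardinal.aleph0_le_mk G) le_rfl

end Pool.Agent.Results.MP_68822d_al.AllGroups
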